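import Pool.Agent.N220.CF.Q3

/-!
# Chains of the second kind with defects near linear forms in good approximations of almost every point

Let `k ≥ 1`, and let `α` be a point of `R^k` outside of a null set. For all invertible integral matrices `M` of size `k + 1`, all
integral vectors `c` and all but finitely many integral vectors `(q, p_1, ..., p_k)`, `q ≥ 1`, with `|q α_i - p_i| ≤ b q^(-1/k)`
for all `i`, EVERY vector `h` of integers at a distance of at most `log ^ W q` (in each coordinate) from `M (q, p) + c` has the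
property: if the chain `n`, `2 n - 1 + h_0`, ... of length `k + 2`, in which each term is twice the preceding one minus `1` plus
the defect `h_i`, has no fixed prime divisor, then it obeys the law of Hardy and Littlewood at the scale `q`, in all windows of
length at least `q / log ^ A q` up to `B q`. For `k = 1` this holds along the convergents of almost every real number.
-/

set_option autoImplicit false

namespace Pool.Agent.Results.MP_9f2731_nt.ConvergentDefects

open Finset Filter MeasureTheory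
open Pool.Agent.N220.CF (Near conv vec Admissible HL lead term chains_all chains_conv)

/-- The chain of the second kind with the defects `h`: `n`, `2 n - 1 + h 0`, ... -/
def chain (h : ℕ → ℤ) (n : ℤ) : ℕ → ℤ
  | 0 => n
  | i + 1 => 2 * chain h n i - 1 + h i

/-- The `i`-th term of the chain is the polynomial `2 ^ i * n + chain h 0 i` in `n`. -/
theorem chain_eq (h : ℕ → ℤ) (n : ℤ) (i : ℕ) : chain h n i = 2 ^ i * n + chain h 0 i := by
  induction i with
  | zero => simp [chain]
  | succ i ih =>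
    rw [chain, chain, ih]
    ring

/-- All chains of length `k + 2` without fixed prime divisor and with defects `h i` at a distance of at most `log ^ W q` from the
coordinates of `M (q, p_1, ..., p_k) + c` obey the law of Hardy and Littlewood at the scale `q`. Here `t = (p, q)`. -/
def Law {k : ℕ} (M : Matrix (Fin (k + 1)) (Fin (k + 1)) ℤ) (c : Fin (k + 1) → ℤ) (A B W : ℕ) (ε : ℝ)
    (t : (Fin k → ℤ) × ℕ) : Prop :=
  ∀ h : ℕ → ℤ, (∀ i : Fin (k + 1), |(h i : ℝ) - (((M.mulVec (vec t) i + c i : ℤ)) : ℝ)| ≤ Real.log t.2 ^ W) →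
    (∀ l : ℕ, l.Prime → ∃ n : ℤ, ∀ i < k + 2, ¬ (l : ℤ) ∣ chain h n i) →
      HL ε A B t.2 (fun i : Fin (k + 2) => 2 ^ (i : ℕ)) (fun i => chain h 0 i)

lemma term_chain (h : ℕ → ℤ) (n : ℤ) (i : ℕ) : term (fun _ => 2) (fun i => h i - 1) n i = chain h n i := by
  induction i with
  | zero => rfl
  | succ i ih =>
    rw [term, chain, ih]
    ring

lemma law_of {k : ℕ} (M : Matrix (Fin (k + 1)) (Fin (k + 1)) ℤ) (c : Fin (k + 1) → ℤ) (A B W : ℕ) (ε : ℝ)
    (t : (Fin k → ℤ) × ℕ) (h : Pool.Agent.N220.CF.ChainLaw (fun _ => 2) M (fun i => c i - 1) A B W ε t) : Law M c A B W ε t := by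
  intro u hu hadm
  have e1 : (fun i : Fin (k + 2) => lead (fun _ => 2) i) = fun i : Fin (k + 2) => (2 : ℤ) ^ (i : ℕ) := by
    funext i
    simp [lead]
  have e2 : (fun i : Fin (k + 2) => term (fun _ => 2) (fun i => u i - 1) 0 i) = fun i : Fin (k + 2) => chain u 0 i := by
    funext i
    rw [term_chain]
  have h1 := h (fun i => u i - 1) (fun i => by
    have := hu i
    push_cast at this ⊢
    rw [show ((u i : ℝ) - 1 - ((M.mulVec (vec t) i : ℝ) + ((c i : ℝ) - 1))) = (u i : ℝ) - ((M.mulVec (vec t) i : ℝ) + (c i : ℝ)) by ring]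
    exact this)
  rw [e1, e2] at h1
  refine h1 ⟨fun i => by positivity, fun i j hij => ?_, fun l hl => ?_⟩
  · have h2 : (2 : ℤ) ^ (i : ℕ) ≠ 2 ^ (j : ℕ) := by
      intro h3
      exact hij (Fin.ext (Int.pow_right_injective (by norm_num) h3))
    refine ⟨fun h3 => h2 h3.1, fun h3 => ?_⟩
    have h4 : (0 : ℤ) < 2 ^ (i : ℕ) := by positivity
    have h5 : (0 : ℤ) < 2 ^ (j : ℕ) := by positivity
    have h6 : (2 : ℤ) ^ (i : ℕ) = -2 ^ (j : ℕ) := h3.1
    linarith
  · obtain ⟨n, hn⟩ := hadm l hl
    refine ⟨n, fun h2 => ?_⟩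
    obtain ⟨i, -, hi⟩ := ((Nat.prime_iff_prime_int.1 hl).dvd_finsetProd_iff _).1 h2
    apply hn i i.2
    rw [chain_eq]
    exact hi

/-- **Chains of the second kind with defects.** -/
theorem result :
    (∀ k : ℕ, 1 ≤ k → ∀ᵐ α : Fin k → ℝ, ∀ (M : Matrix (Fin (k + 1)) (Fin (k + 1)) ℤ) (c : Fin (k + 1) → ℤ) (A B W : ℕ) (ε : ℝ),
      M.det ≠ 0 → 0 < ε → ∀ b : ℝ, {t | Near b (1 / k) α t ∧ ¬ Law M c A B W ε t}.Finite) ∧
    ∀ᵐ ξ : ℝ, ∀ (M : Matrix (Fin 2) (Fin 2) ℤ) (c : Fin 2 → ℤ) (A B W : ℕ) (ε : ℝ), M.det ≠ 0 → 0 < ε →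
      ∀ᶠ n : ℕ in atTop, Law M c A B W ε (conv ξ n) := by
  refine ⟨fun k hk => ?_, ?_⟩
  · filter_upwards [chains_all k hk] with α hα M c A B W ε hM he b
    exact (hα (fun _ => 2) M (fun i => c i - 1) A B W ε hM he b).subset fun t ht => ⟨ht.1, fun h => ht.2 (law_of M c A B W ε t h)⟩
  · filter_upwards [chains_conv] with ξ hξ M c A B W ε hM he
    filter_upwards [hξ (fun _ => 2) M (fun i => c i - 1) A B W ε hM he] with n hn
    exact law_of M c A B W ε _ hn

end Pool.Agent.Results.MP_9f2731_nt.ConvergentDefects
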