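import Mathlib
import Pool.Agent.N740.HK.Sch
import Pool.Agent.N315.CC.Poly
import Pool.Agent.N315.CC.Gaps

/-!
# Gaps between Cunningham chains in all sequential random models of the primes

The integers are decided one after the other and the conditional probability of choosing `n + 1`,
given the decisions up to `n`, is asymptotic to `1 / log n`, almost surely.  Nothing else is assumed:
no independence and no rate of convergence.  The independent model of Cramér and the random sieve of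
Hawkins are examples.

Let `f` be an integer polynomial of degree `d` with `f(z) > z` for all large `z` (Cunningham chains of the
second kind: `f(z) = 2 z - 1`; arithmetic progressions: `f(z) = z + b`), and let `C` be the set of the `n` for
which the chain `n, f(n), f(f(n)), ...` of `k` terms consists of chosen integers.  Almost surely, for all `f` and
`k` at once, `C` is infinite, and the gap after a member `s` of `C` has the exact maximal order
`d ^ (k (k - 1) / 2) log ^ (k + 1) s` (for chains of the second kind of every length `k`: `log ^ (k + 1) s`).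

Proof. The shorter chains in all windows of length `λ log ^ (k + 1) x` are counted by a concentration
inequality for predictable families of trials, up to `log ^ 2 x` chains of `k - 1` terms. These decide at
which places the last term is tried; the probability that all these trials fail is computed exactly enough from
above (for all `x`: Borel-Cantelli) and from below (for trials at the starting points `[j ^ β]`).
-/

set_option autoImplicit false

open MeasureTheory Filter Set ProbabilityTheory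
open scoped Topology

namespace Pool.Agent.Results.MP_9f2731_nt.SequentialModels

variable {Ω : Type}

/-- `A n` is the event that `n` is chosen.  The events are adapted to the filtration `ℱ` and the
conditional probability of `A (n + 1)` given `ℱ n`, times `log n`, tends to `1` almost surely. -/
def SequentialModel [m : MeasurableSpace Ω] (μ : Measure Ω) (ℱ : Filtration ℕ m) (A : ℕ → Set Ω) : Prop :=
  (∀ n, MeasurableSet[ℱ n] (A n)) ∧
  ∀ᵐ ω ∂μ, Tendsto (fun n : ℕ => (μ[(A (n + 1)).indicator (fun _ => (1 : ℝ)) | ℱ n]) ω * Real.log n) atTop (𝓝 1)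

/-- The model of Cramér: independent events, `n` is chosen with probability `1 / log n` for `n ≥ 3`. -/
def CramerModel [MeasurableSpace Ω] (μ : Measure Ω) (A : ℕ → Set Ω) : Prop :=
  (∀ n, MeasurableSet (A n)) ∧ iIndepSet A μ ∧ ∀ n : ℕ, 3 ≤ n → μ (A n) = ENNReal.ofReal (1 / Real.log n)

open Classical in
/-- The random sieve of Hawkins: `2` is chosen, and given the decisions up to `n ≥ 2` the number
`n + 1` is chosen with probability `∏ (1 - 1 / h)`, the product over the chosen `2 ≤ h ≤ n`. -/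
def HawkinsSieve [m : MeasurableSpace Ω] (μ : Measure Ω) (ℱ : Filtration ℕ m) (A : ℕ → Set Ω) : Prop :=
  (∀ n, MeasurableSet[ℱ n] (A n)) ∧ A 2 = univ ∧
  ∀ n, 2 ≤ n → μ[(A (n + 1)).indicator (fun _ => (1 : ℝ)) | ℱ n] =ᵐ[μ]
    fun ω => ∏ h ∈ Finset.Icc 2 n, if ω ∈ A h then 1 - 1 / (h : ℝ) else 1

open Polynomial in
/-- The starting points of the chains of `k` terms: all `n` for which `n, f(n), f(f(n)), ...`, `k` terms, are
in `S`. -/
def chainStarts (f : ℤ[X]) (k : ℕ) (S : Set ℕ) : Set ℕ :=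
  {n | ∀ i < k, ∃ m ∈ S, (m : ℤ) = (fun z : ℤ => f.eval z)^[i] (n : ℤ)}

/-- The least member of `C` greater than `s`. -/
noncomputable def nextMember (C : Set ℕ) (s : ℕ) : ℕ := sInf {t | t ∈ C ∧ s < t}

open Pool.Agent.N740.HK Pool.Agent.R528.RM Pool.Agent.N315.CC

lemma prod_inv (A : ℕ → Set Ω) (n : ℕ) (ω : Ω) [DecidablePred fun h => ω ∈ A h] :
    (∏ h ∈ Finset.Icc 2 n, if ω ∈ A h then 1 - 1 / (h : ℝ) else 1) = (Y A n ω)⁻¹ := by
  unfold Y
  rw [← Finset.prod_inv_distrib]
  refine Finset.prod_congr rfl fun h hh => ?_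
  have h2 : (2 : ℝ) ≤ h := by exact_mod_cast (Finset.mem_Icc.1 hh).1
  by_cases hA : ω ∈ A h
  · rw [if_pos hA, if_pos hA, inv_div]
    field_simp
  · rw [if_neg hA, if_neg hA, inv_one]

lemma log_ratio : Tendsto (fun n : ℕ => (Real.log ((n + 1 : ℕ) : ℝ))⁻¹ * Real.log n) atTop (𝓝 1) := by
  have h1 : Tendsto (fun n : ℕ => Real.log ((n : ℝ) + 1) - Real.log n) atTop (𝓝 0) := by
    have h1 : Tendsto (fun n : ℕ => 1 + (1 : ℝ) / n) atTop (𝓝 (1 + 0)) :=
      tendsto_const_nhds.add tendsto_one_div_atTop_nhds_zero_nat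
    rw [add_zero] at h1
    have h2 := (Real.continuousAt_log (one_ne_zero)).tendsto.comp h1
    rw [Real.log_one] at h2
    refine h2.congr' ?_
    filter_upwards [eventually_gt_atTop 0] with n hn
    have hn' : (0 : ℝ) < n := by exact_mod_cast hn
    show Real.log (1 + 1 / (n : ℝ)) = _
    rw [← Real.log_div (by positivity) hn'.ne']
    congr 1
    field_simp
  have h2 : Tendsto (fun n : ℕ => Real.log ((n : ℝ) + 1)) atTop atTop :=
    Real.tendsto_log_atTop.comp (tendsto_atTop_add_const_right _ _ tendsto_natCast_atTop_atTop)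
  have h3 := h1.div_atTop h2
  have h4 : Tendsto (fun n : ℕ => 1 - (Real.log ((n : ℝ) + 1) - Real.log n) / Real.log ((n : ℝ) + 1)) atTop (𝓝 (1 - 0)) :=
    tendsto_const_nhds.sub h3
  rw [sub_zero] at h4
  refine h4.congr' ?_
  filter_upwards [h2.eventually_gt_atTop 0] with n hn
  push_cast
  field_simp
  ring

lemma starts_iff {A : ℕ → Set Ω} {f : Polynomial ℤ} {φ : ℕ → ℕ} {z₀ : ℕ}
    (h : ∀ n : ℕ, z₀ ≤ n → ∀ i, (fun z : ℤ => f.eval z)^[i] (n : ℤ) = (φ^[i] n : ℕ)) {k n : ℕ} (hn : z₀ ≤ n) {ω : Ω} :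
    n ∈ chainStarts f k {n | ω ∈ A n} ↔ ω ∈ chn A φ k n := by
  constructor
  · intro h1 i hi
    obtain ⟨m, h2, h3⟩ := h1 i hi
    rw [h n hn i] at h3
    have h4 : m = φ^[i] n := by exact_mod_cast h3
    rw [← h4]
    exact h2
  · intro h1 i hi
    exact ⟨φ^[i] n, h1 i hi, (h n hn i).symm⟩

theorem main {Ω : Type} [m : MeasurableSpace Ω] (μ : Measure Ω) [IsProbabilityMeasure μ] (A : ℕ → Set Ω)
    (ℱ : Filtration ℕ m) (hS : SequentialModel μ ℱ A) (f : Polynomial ℤ)
    (hf : ∀ᶠ z : ℤ in atTop, z < f.eval z) (k : ℕ) (hk : 1 ≤ k) :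
    ∀ᵐ ω ∂μ, (chainStarts f k {n | ω ∈ A n}).Infinite ∧ ∀ ε : ℝ, 0 < ε →
      (∀ᶠ s : ℕ in atTop, s ∈ chainStarts f k {n | ω ∈ A n} →
        (nextMember (chainStarts f k {n | ω ∈ A n}) s : ℝ) - s ≤
          ((f.natDegree : ℝ) ^ (k * (k - 1) / 2) + ε) * Real.log s ^ (k + 1)) ∧
      ∃ᶠ s : ℕ in atTop, s ∈ chainStarts f k {n | ω ∈ A n} ∧
        ((f.natDegree : ℝ) ^ (k * (k - 1) / 2) - ε) * Real.log s ^ (k + 1) <
          (nextMember (chainStarts f k {n | ω ∈ A n}) s : ℝ) - s := by
  obtain ⟨hA, hd⟩ := hS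
  obtain ⟨φ, hφ, hφ1, hdeg, hlog, z₀, hz₀⟩ := exists_map f hf
  obtain ⟨i, rfl⟩ : ∃ i, k = i + 1 := ⟨k - 1, by omega⟩
  have hd0 : (0 : ℝ) < f.natDegree := by exact_mod_cast hdeg
  have htri : (i + 1) * (i + 1 - 1) / 2 = tri (i + 1) := by
    unfold tri
    rw [Finset.sum_range_id]
  rw [htri]
  set D : ℝ := (f.natDegree : ℝ) ^ tri (i + 1) with hD
  have hD0 : 0 < D := by positivity
  have hu : ∀ᵐ ω ∂μ, ∀ j : ℕ, ∀ᶠ x : ℕ in atTop, ∃ n, x < n ∧ n ≤ x + LL (D + 1 / ((j : ℝ) + 1)) (i + 2) x ∧ ω ∈ chn A φ (i + 1) n :=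
    ae_all_iff.2 fun j => upper hA hd hφ hφ1 hd0 hlog i (by
      have : (0 : ℝ) < 1 / ((j : ℝ) + 1) := by positivity
      linarith)
  have hl : ∀ᵐ ω ∂μ, ∀ j : ℕ, ∃ᶠ x : ℕ in atTop, ∀ n, x < n → n ≤ x + LL (D * (1 - 1 / ((j : ℝ) + 2))) (i + 2) x → ω ∉ chn A φ (i + 1) n :=
    ae_all_iff.2 fun j => by
      have h1 : 0 < 1 - 1 / ((j : ℝ) + 2) := by
        have : (0 : ℝ) ≤ j := Nat.cast_nonneg j
        rw [sub_pos, div_lt_one (by positivity)]
        linarith
      have h2 : 0 < 1 / ((j : ℝ) + 2) := by positivity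
      exact lower hA hd hφ hφ1 hd0 hlog i (by positivity) (by nlinarith)
  filter_upwards [hu, hl] with ω h1 h2
  refine gaps (chainStarts f (i + 1) {n | ω ∈ A n}) hD0 (i + 1 + 1) (fun j => ?_) (fun j => ?_)
  · filter_upwards [h1 j, eventually_ge_atTop z₀] with x hx hx0
    obtain ⟨n, h3, h4, h5⟩ := hx
    exact ⟨n, (starts_iff hz₀ (by omega)).2 h5, h3, h4⟩
  · refine ((h2 j).and_eventually (eventually_ge_atTop z₀)).mono ?_
    rintro x ⟨h3, h4⟩ n h5 h6 h7
    exact h3 n h5 h6 ((starts_iff hz₀ (by omega)).1 h7)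

end Pool.Agent.Results.MP_9f2731_nt.SequentialModels

open Pool.Agent.Results.MP_9f2731_nt.SequentialModels Pool.Agent.N740.HK Pool.Agent.R528.RM Polynomial

/-- The random sieve of Hawkins is a sequential model, the model of Cramér is one for some filtration.
In every sequential model, almost surely, for all integer polynomials `f` with `f(z) > z` for large `z` and all
`k ≥ 1`, the set `C` of the starting points of the chains of `k` chosen integers is infinite, and for every
`ε > 0` the gap after `s ∈ C` is at most `(d ^ (k (k - 1) / 2) + ε) log ^ (k + 1) s` for all large `s`, and larger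
than `(d ^ (k (k - 1) / 2) - ε) log ^ (k + 1) s` for infinitely many `s`, where `d` is the degree of `f`. The
polynomial `2 z - 1` of the chains of the second kind is one of the `f`, with `d = 1`. -/
theorem Pool.Agent.Results.MP_9f2731_nt.SequentialModels.result
    {Ω : Type} [m : MeasurableSpace Ω] (μ : Measure Ω) [IsProbabilityMeasure μ] (A : ℕ → Set Ω) :
    (CramerModel μ A → ∃ ℱ : Filtration ℕ m, SequentialModel μ ℱ A) ∧
    (∀ ℱ : Filtration ℕ m,
    (HawkinsSieve μ ℱ A → SequentialModel μ ℱ A) ∧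
    (SequentialModel μ ℱ A →
      ∀ᵐ ω ∂μ, ∀ f : ℤ[X], (∀ᶠ z : ℤ in atTop, z < f.eval z) → ∀ k : ℕ, 1 ≤ k →
        (chainStarts f k {n | ω ∈ A n}).Infinite ∧ ∀ ε : ℝ, 0 < ε →
          (∀ᶠ s : ℕ in atTop, s ∈ chainStarts f k {n | ω ∈ A n} →
            (nextMember (chainStarts f k {n | ω ∈ A n}) s : ℝ) - s ≤
              ((f.natDegree : ℝ) ^ (k * (k - 1) / 2) + ε) * Real.log s ^ (k + 1)) ∧
          ∃ᶠ s : ℕ in atTop, s ∈ chainStarts f k {n | ω ∈ A n} ∧
            ((f.natDegree : ℝ) ^ (k * (k - 1) / 2) - ε) * Real.log s ^ (k + 1) <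
              (nextMember (chainStarts f k {n | ω ∈ A n}) s : ℝ) - s)) ∧
    (2 * X - 1 : ℤ[X]).natDegree = 1 ∧ ∀ᶠ z : ℤ in atTop, z < (2 * X - 1 : ℤ[X]).eval z := by
  classical
  refine ⟨?_, fun ℱ => ⟨?_, ?_⟩, ?_, ?_⟩
  · rintro ⟨hA, hi, hp⟩
    refine ⟨gen hA, gen_meas hA, ?_⟩
    have h1 : ∀ᵐ ω ∂μ, ∀ n, (μ[(A (n + 1)).indicator (fun _ => (1 : ℝ)) | gen hA n]) ω =
        (μ (A (n + 1))).toReal := ae_all_iff.2 fun n => dens_gen hA hi n
    filter_upwards [h1] with ω hω
    refine log_ratio.congr' ?_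
    filter_upwards [eventually_ge_atTop 2] with n hn
    rw [hω, hp (n + 1) (by omega), ENNReal.toReal_ofReal, one_div]
    have : 0 ≤ Real.log ((n + 1 : ℕ) : ℝ) := Real.log_natCast_nonneg _
    positivity
  · rintro ⟨h1, h2, h3⟩
    have hs : Pool.Agent.N740.HK.HS μ ℱ A := ⟨h1, h2, fun n hn => by
      filter_upwards [h3 n hn] with ω hω
      rw [← prod_inv]
      exact hω⟩
    exact ⟨h1, Pool.Agent.N740.HK.hawk_dens hs⟩
  · intro hS
    haveI : Countable ℤ[X] := by
      rw [← Cardinal.mk_le_aleph0_iff]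
      refine Polynomial.cardinalMk_le_max.trans ?_
      simp
    have h1 : ∀ᵐ ω ∂μ, ∀ (f : ℤ[X]) (hf : ∀ᶠ z : ℤ in atTop, z < f.eval z) (k : ℕ) (hk : 1 ≤ k), _ :=
      ae_all_iff.2 fun f => ae_all_iff.2 fun hf => ae_all_iff.2 fun k => ae_all_iff.2 fun hk => main μ A ℱ hS f hf k hk
    filter_upwards [h1] with ω hω f hf k hk
    exact hω f hf k hk
  · have : (2 * X - 1 : ℤ[X]) = C 2 * X + C (-1) := by
      rw [C_neg]
      rfl
    rw [this]
    exact natDegree_linear (by norm_num)
  · filter_upwards [eventually_gt_atTop 1] with z hz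
    simp only [eval_sub, eval_mul, eval_ofNat, eval_X, eval_one]
    linarith
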