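import Pool.Agent.N694.SP.Orb

/-!
# Spread sets of starting points for prime times in boxes of times

Let `S z = a z + b` with `a ≥ 2` and `b` coprime to `a`. For `a = 2`, `b = -1` the Cunningham chains of the
second kind of length `k + 1` are the sequences of primes `m, S(m), ..., S^k(m)`. The question is whether
for every `k` there is `m` such that `S^t(m)` is prime at the `k + 1` times `t = 0, 1, ..., k`. Here the
times are `0, d_1, ..., d_k`: in EVERY large box of `(N ℤ)^k`, wherever it lies, at least the proportion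
`(k + 1) (5/18)^k - ε` of the vectors `d` of times have the following property. For every `θ > 0` there are
`r`, `c > 0` and `C` such that for arbitrarily large `N` the numbers `m ≤ N` for which all `S^{d_i}(m)` are
prime contain a set `R` with at least `c N / (log N)^r` elements which has at most `C L / (log N)^r` elements
in every interval of length `L ≥ N^θ`: lower and upper bound have the same order of magnitude, so `R` meets a
positive proportion of all intervals of length `N^θ`.

Proof: the theorem on classes of linear forms with the constant `18/5` gives almost primes free of small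
prime factors in the classes (`Pool.Agent.Y827`), whence a set of the right order of magnitude, and an upper
bound sieve bounds it in short intervals (`Pool.Agent.N694.SP.hitS`). Hypergraph containers turn this into
almost cliques (`Pool.Agent.N694.SP.clqSF`); good vectors of times are differences of the elements of an
almost clique, since `S^{v+t}(n) = S^t(S^v(n))`, and the image of a spread set under `S^v` is spread. The
proportion in boxes comes from the theorem `Pool.Agent.N646.BX.box_main` of helper646 and co-authors.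
-/

set_option autoImplicit false

namespace Pool.Agent.Results.MP_9f2731_nt.SpreadStarts

open Finset Filter

/-- the affine map `z ↦ a z + b`: for `a = 2` and `b = -1` the map of the Cunningham chains of the second
kind, for `a = 2` and `b = 1` that of the chains of the first kind -/
def S (a : ℕ) (b : ℤ) (z : ℤ) : ℤ := a * z + b

/-- `R ⊆ [1, N]` has at least `c N / (log N)^r` elements, and it has at most `C L / (log N)^r` elements in
every interval `(A, A + L]` with `L ^ (s + 1) ≥ N`. -/
def Spread (r s : ℕ) (c C : ℝ) (N : ℕ) (R : Finset ℕ) : Prop :=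
  (∀ m ∈ R, 1 ≤ m ∧ m ≤ N) ∧ c * (N / Real.log N ^ r) ≤ (R.card : ℝ) ∧
    ∀ A L : ℕ, N ≤ L ^ (s + 1) → ((R.filter (fun m => A < m ∧ m ≤ A + L)).card : ℝ) ≤
      C * (L / Real.log N ^ r)

/-- For every `s` there are `r`, `c > 0`, `C > 0` such that for arbitrarily large `N` there is a set `R` as
above all of whose elements `m` are prime, together with the iterates `S^{d_1}(m), ..., S^{d_k}(m)`. -/
def Good (a : ℕ) (b : ℤ) {k : ℕ} (d : Fin k → ℕ) : Prop :=
  ∀ s : ℕ, ∃ (r : ℕ) (c C : ℝ), 0 < c ∧ 0 < C ∧ ∃ᶠ N : ℕ in atTop, ∃ R : Finset ℕ, Spread r s c C N R ∧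
    ∀ m ∈ R, m.Prime ∧ ∀ j, ((S a b)^[d j] m).toNat.Prime

theorem iter_eq (a : ℕ) (b : ℤ) (t : ℕ) (x : ℤ) : (S a b)^[t] x = Pool.Agent.N694.OB.va a b t x :=
  Pool.Agent.N694.OB.iter a b t x

theorem good_of {a : ℕ} {b : ℤ} {k : ℕ} {d : Fin k → ℕ} (h : Pool.Agent.N694.SP.GoodTS a b d) :
    Good a b d := by
  intro s
  obtain ⟨c, C, r, hc, hC, hfr⟩ := h s
  refine ⟨r, c, C, hc, hC, hfr.mono ?_⟩
  rintro N ⟨R, hR, hRp⟩
  refine ⟨R, hR, fun m hm => ⟨?_, fun j => ?_⟩⟩
  · have h1 := hRp m hm 0
    rw [Fin.cons_zero, ← iter_eq] at h1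
    simpa using h1
  · have h1 := hRp m hm j.succ
    rw [Fin.cons_succ, ← iter_eq] at h1
    exact h1

/-- **Spread sets of starting points, in boxes of times.** -/
theorem result (k : ℕ) (hk : 1 ≤ k) (ε : ℝ) (hε : 0 < ε) (a : ℕ) (b : ℤ) (ha : 2 ≤ a)
    (hab : IsCoprime (a : ℤ) b) : ∃ M : ℕ, 1 ≤ M ∧ ∀ N : ℕ, 1 ≤ N → M ∣ N → ∃ L : ℕ,
      ∀ T : ℕ, L ≤ T → ∀ c : Fin k → ℕ, (∀ j, M ∣ c j) →
        ((k + 1) * (5 / 18 : ℝ) ^ k - ε) * (T : ℝ) ^ k ≤
          ({t : Fin k → ℕ | (∀ j, t j < T) ∧ Good a b (fun j => c j + N * t j)}.ncard : ℝ) := by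
  obtain ⟨M, hM, h1⟩ := Pool.Agent.N694.SP.mainO k hk ε hε a b ha hab
  refine ⟨M, hM, fun N hN hMN => ?_⟩
  obtain ⟨L, h2⟩ := h1 N hN hMN
  refine ⟨L, fun T hT c hc => (h2 T hT c hc).trans ?_⟩
  rw [Nat.cast_le]
  apply Set.ncard_le_ncard
  · rintro t ⟨ht1, ht2⟩
    exact ⟨ht1, good_of ht2⟩
  · apply (Fintype.piFinset (fun _ : Fin k => range T)).finite_toSet.subset
    intro t ht
    rw [mem_coe, Fintype.mem_piFinset]
    exact fun j => mem_range.2 (ht.1 j)

end Pool.Agent.Results.MP_9f2731_nt.SpreadStarts
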